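import Pool.Agent.R391.FV.Num

set_option autoImplicit false
set_option linter.unusedSectionVars false

/-!
# Fixed vertices of random labelled trees (MP_20afc1_co, Q1)

The expected proportion of vertices of a uniform random labelled tree on `n` vertices which are
fixed by the automorphism group of the tree converges to
`1 - ∑ m, a m`, where `a m = (e ^ (-m) / m!) * ∑_{(S, r)} fix (S, r) * (1 - exp (-e ^ (-m) / |Aut (S, r)|))`,
the inner sum being over all labelled trees `S` on `m` vertices with a root `r`.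
-/

namespace Pool.Agent.Results.MP_20afc1_co.FixedVerticesLimit

open Finset Filter Topology Pool.Agent.R391.FV

open Classical in
/-- the labelled trees on `n` vertices -/
noncomputable def trees (n : ℕ) : Finset (SimpleGraph (Fin n)) := univ.filter (fun T => T.IsTree)

/-- the number of vertices of `T` which are fixed by all automorphisms of `T` -/
noncomputable def numFixed {n : ℕ} (T : SimpleGraph (Fin n)) : ℕ :=
  Nat.card {v : Fin n // ∀ σ : T ≃g T, σ v = v}

/-- the expectation of `X_n` -/
noncomputable def EX (n : ℕ) : ℝ :=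
  (∑ T ∈ trees n, (numFixed T : ℝ) / n) / ((trees n).card : ℝ)

/-- the number of automorphisms of the rooted tree `(S, r)` -/
noncomputable def rootedAut {m : ℕ} (S : SimpleGraph (Fin m)) (r : Fin m) : ℕ :=
  Nat.card {α : S ≃g S // α r = r}

/-- the number of vertices of the rooted tree `(S, r)` fixed by all its automorphisms -/
noncomputable def rootedFixed {m : ℕ} (S : SimpleGraph (Fin m)) (r : Fin m) : ℕ :=
  Nat.card {w : Fin m // ∀ α : S ≃g S, α r = r → α w = w}

/-- the terms of the series -/
noncomputable def a (m : ℕ) : ℝ :=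
  Real.exp (-(m : ℝ)) / (m.factorial : ℝ) * ∑ S ∈ trees m, ∑ r : Fin m,
    (rootedFixed S r : ℝ) * (1 - Real.exp (-(Real.exp (-(m : ℝ)) / (rootedAut S r : ℝ))))

lemma card_trees (n : ℕ) (hn : 1 ≤ n) : (trees n).card = n ^ (n - 2) := by
  classical
  have h := cayley (Fin n) (by rw [Fintype.card_fin]; exact hn)
  rw [Fintype.card_fin] at h
  rw [← h, Nat.card_eq_fintype_card, Fintype.card_subtype]
  rfl

lemma rootedFixed_eq {m : ℕ} (S : SimpleGraph (Fin m)) (r : Fin m) :
    rootedFixed S r = fx S r := by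
  classical
  unfold rootedFixed fx
  rw [Nat.card_eq_fintype_card, Fintype.card_subtype]
  rfl

lemma a_eq (m : ℕ) : a m = limT m := by
  unfold a limT
  have h : ∑ S ∈ Tr m, ∑ r : Fin m, (fx S r : ℝ) * (Real.exp (-(m : ℝ)) *
      (1 - Real.exp (-(Real.exp (-(m : ℝ)) / (AA S r : ℝ))))) =
      Real.exp (-(m : ℝ)) * ∑ S ∈ trees m, ∑ r : Fin m,
    (rootedFixed S r : ℝ) * (1 - Real.exp (-(Real.exp (-(m : ℝ)) / (rootedAut S r : ℝ)))) := by
    rw [Finset.mul_sum]
    apply Finset.sum_congr rfl
    intro S _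
    rw [Finset.mul_sum]
    apply Finset.sum_congr rfl
    intro r _
    rw [rootedFixed_eq]
    show _ = Real.exp (-(m : ℝ)) * ((fx S r : ℝ) *
      (1 - Real.exp (-(Real.exp (-(m : ℝ)) / (AA S r : ℝ)))))
    ring
  rw [h]
  ring

lemma EX_eq (n : ℕ) (hn : 1 ≤ n) : EX n = 1 - ((MV n).card : ℝ) / nn n := by
  classical
  have h1 : ∀ T : SimpleGraph (Fin n), numFixed T +
      (univ.filter (fun v : Fin n => ∃ σ : T ≃g T, σ v ≠ v)).card = n := by
    intro T
    unfold numFixed
    rw [Nat.card_eq_fintype_card, Fintype.card_subtype]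
    have h2 : (univ.filter (fun v : Fin n => ∃ σ : T ≃g T, σ v ≠ v)) =
        univ.filter (fun v : Fin n => ¬ ∀ σ : T ≃g T, σ v = v) := by
      ext v
      simp only [mem_filter, mem_univ, true_and, not_forall]
    rw [h2, Finset.card_filter_add_card_filter_not]
    simp
  have h3 : ((MV n).card : ℝ) = ∑ T ∈ trees n, ((n : ℝ) - numFixed T) := by
    have h4 : (MV n).card = ∑ p ∈ PP (Fin n), if (∃ σ : p.1 ≃g p.1, σ p.2 ≠ p.2) then 1 else 0 := by
      unfold MV
      rw [Finset.card_filter]
    rw [h4, sum_PP (fun (T : SimpleGraph (Fin n)) (v : Fin n) =>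
      if (∃ σ : T ≃g T, σ v ≠ v) then 1 else 0)]
    rw [Nat.cast_sum]
    apply Finset.sum_congr rfl
    intro T _
    rw [← Finset.card_filter]
    have := h1 T
    have h5 : ((numFixed T + (univ.filter (fun v : Fin n => ∃ σ : T ≃g T, σ v ≠ v)).card : ℕ) : ℝ)
        = (n : ℝ) := by rw [this]
    push_cast at h5
    linarith
  have hn0 : (0 : ℝ) < n := by exact_mod_cast hn
  have h6 : ((trees n).card : ℝ) * n = nn n := by
    have := card_Tr_mul n
    have h7 : trees n = Tr n := rfl
    rw [h7]
    exact_mod_cast this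
  have h8 : (0 : ℝ) < nn n := by exact_mod_cast nn_pos hn
  have h9 : (0 : ℝ) < (trees n).card := by
    by_contra hcon
    have : ((trees n).card : ℝ) = 0 := le_antisymm (not_lt.1 hcon) (by positivity)
    rw [this, zero_mul] at h6
    linarith
  rw [h3, Finset.sum_sub_distrib, Finset.sum_const, nsmul_eq_mul, h6]
  unfold EX
  rw [← Finset.sum_div, ← h6]
  field_simp
  ring

/-- **Fixed vertices of random labelled trees.** `E(X_n)` converges, and its limit is
`1 - ∑ m, a m`; numerically the limit is between `0.83` and `0.86`. -/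
theorem result :
    (∀ n, 1 ≤ n → (trees n).card = n ^ (n - 2)) ∧
    (∀ m, 0 ≤ a m) ∧ Summable a ∧
    Tendsto EX atTop (𝓝 (1 - ∑' m, a m)) ∧
    0.83 < 1 - ∑' m, a m ∧ 1 - ∑' m, a m < 0.86 := by
  have ha : a = limT := funext a_eq
  refine ⟨card_trees, ?_, ?_, ?_, ?_, ?_⟩
  · rw [ha]
    exact limT_nonneg
  · rw [ha]
    exact limT_summable
  · rw [ha]
    have h1 := MV_tendsto.const_sub 1
    refine h1.congr' ?_
    filter_upwards [eventually_ge_atTop 1] with n hn
    rw [EX_eq n hn]
  · rw [ha]
    have := lim_bounds.2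
    norm_num at this ⊢
    linarith
  · rw [ha]
    have := lim_bounds.1
    norm_num at this ⊢
    linarith

end Pool.Agent.Results.MP_20afc1_co.FixedVerticesLimit
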